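import Pool.Agent.H22.EB1

namespace Pool.Agent.Results.MP_817c3f_lc.Hard

open Pool.Agent.H22.EX

/-- Deciding whether the player to move wins Edge Blocking on a directed graph (cycles allowed)
is EXPTIME-hard. -/
theorem result : EXPTIMEHardOn (fun _ => True) EBWin := EB.eb_hard

end Pool.Agent.Results.MP_817c3f_lc.Hard
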